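import Pool.Agent.N44.FA.Defs

/-!
# Statements of the leaves of the project FA
-/

set_option autoImplicit false

namespace Pool.Agent.N44.FA

open Pool.Agent.N44.NS

/-- the central idempotents -/
def S_IDEM : Prop := ∀ k, (Pi.single k (1 : Mt k) : ∀ k, Mt k) ∈ R

/-- each coordinate is onto -/
def S_ONTO : Prop := ∀ k, Algebra.adjoin (ZMod 2) {xx k 0, yy k 0, sh k, sh' k} = ⊤

/-- `R` modulo the finitely supported elements has no finite quotients -/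
def S_NFQR : Prop :=
  ∀ I : AddSubgroup (∀ k, Mt k), (∀ a ∈ R, ∀ b ∈ I, a * b ∈ I ∧ b * a ∈ I) →
    (∀ (k : ℕ) (a : Mt k), Pi.single k a ∈ I) →
    (∀ f : ℕ → (∀ k, Mt k), (∀ n, f n ∈ R) → ∃ i j, i < j ∧ f i - f j ∈ I) → (1 : ∀ k, Mt k) ∈ I

/-- over a matrix algebra over the field with two elements `GL_3 = E_3` -/
def S_EL : Prop := ∀ k, E3 (Mt k) = ⊤

/-- `Gr` contains the factors and the factors are perfect -/
def S_SGL : Prop :=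
  (∀ (k : ℕ) (s : St k), (Pi.mulSingle k s : ∀ k, St k) ∈ Gr) ∧ ∀ k, commutator (St k) = ⊤

def S_NFQG : Prop := NFQ Gr

def S_NFQH : Prop :=
  ∀ (S : ℕ → Type) [∀ k, Group (S k)] (H : Subgroup (∀ k, S k)),
    (∀ (k : ℕ) (s : S k), (Pi.mulSingle k s : ∀ k, S k) ∈ H) → NFQ H →
    ∀ w : ∀ k, S k, NFQ (H ⊔ H.map (MulAut.conj w).toMonoidHom)

def S_PRO : Prop :=
  ∀ (S : ℕ → Type) [∀ k, Group (S k)] [∀ k, Finite (S k)], (∀ k, commutator (S k) = ⊤) →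
    ∀ H : Subgroup (∀ k, S k), (∀ (k : ℕ) (s : S k), (Pi.mulSingle k s : ∀ k, S k) ∈ H) → NFQ H →
    ∀ N : Subgroup H, N.Normal → N.index ≠ 0 →
      ∃ n, ∀ h : H, (∀ k < n, (h : ∀ k, S k) k = 1) → h ∈ N

/-- a finite set of involutions whose pairwise products have order dividing 4 generates a group
with (FA) -/
def S_FAP : Prop :=
  ∀ (G : Type) [Group G] (A : Set G), A.Finite → Subgroup.closure A = ⊤ → (∀ s ∈ A, s * s = 1) →
    (∀ s ∈ A, ∀ t ∈ A, (s * t) ^ 4 = 1) → FA G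

def S_GEN : Prop :=
  ∃ A : Set (∀ k, St k), A.Finite ∧ Subgroup.closure A = Gr ∧ (∀ s ∈ A, s * s = 1) ∧
    ∀ s ∈ A, ∀ t ∈ A, (s * t) ^ 4 = 1

/-- a linear automorphism with prescribed values -/
def S_ADD : Prop :=
  ∀ (V : Type) [AddCommGroup V] [Module (ZMod 2) V] [Finite V] (w : V ≃ₗ[ZMod 2] V)
    (D : Submodule (ZMod 2) V) (x y : V), x ∉ D → y ∉ D.map (w : V →ₗ[ZMod 2] V) →
    ∃ w' : V ≃ₗ[ZMod 2] V, (∀ z ∈ D, w' z = w z) ∧ w' x = y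

/-- the greedy lemma -/
def S_GREEDY : Prop :=
  ∀ k : ℕ, ∃ C : ℕ, ∀ (V : Type) [AddCommGroup V] [Module (ZMod 2) V] [Finite V],
    C ≤ Module.finrank (ZMod 2) V → MixAt (V ≃ₗ[ZMod 2] V) rk k C

def S_MIXS : Prop :=
  (∀ n, IsLen (St n) (ell n)) ∧ (∀ k : ℕ, ∃ C : ℕ, ∀ n, C ≤ n → MixAt (St n) (ell n) k C) ∧
    ∀ n, n ≤ ell n (el 0 2 (by decide) (1 : Mt n))

def S_WW : Prop :=
  ∀ (S : ℕ → Type) [∀ k, Group (S k)] (ℓ : ∀ k, S k → ℕ) (hl : ∀ k, IsLen (S k) (ℓ k)),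
    (∀ k : ℕ, ∃ C : ℕ, ∀ n, C ≤ n → MixAt (S n) (ℓ n) k C) →
    ∀ G : Subgroup (∀ k, S k), Countable G →
    ∃ (w : ∀ k, S k) (Φ : HNNExtension (G.map (QuotientGroup.mk' (NN S ℓ hl))) ⊥ ⊥
        (MulEquiv.refl _) →* (∀ k, S k) ⧸ NN S ℓ hl), Function.Injective Φ ∧
      (∀ g, Φ (HNNExtension.of g) = (g : (∀ k, S k) ⧸ NN S ℓ hl)) ∧
      Φ HNNExtension.t = QuotientGroup.mk' (NN S ℓ hl) w

def S_TREEH : Prop :=
  ∀ (U : Type) [Group U] (B : Subgroup U)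
    (Φ : HNNExtension B ⊥ ⊥ (MulEquiv.refl _) →* U), Function.Injective Φ →
    (∀ g, Φ (HNNExtension.of g) = (g : U)) → (∃ a b : B, a * b ≠ b * a) →
    ∀ (H : Type) [Group H] (π : H →* U),
      π.range = B ⊔ B.map (MulAut.conj (Φ HNNExtension.t)).toMonoidHom → ¬ FA H

end Pool.Agent.N44.FA
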