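import Mathlib
import Pool.Agent.N44.NS.Defs

/-!
# Definitions for the project FA (property (FA) is not an up-weak profinite property)
-/

set_option autoImplicit false

namespace Pool.Agent.N44.FA

open Pool.Agent.N44.NS

/-- Serre's property (FA), as in the frozen statement. -/
def FA (G : Type) [Group G] : Prop :=
  ∀ (V : Type) [MulAction G V] (T : SimpleGraph V), T.IsTree →
    (∀ g : G, ∀ x y : V, T.Adj x y → T.Adj (g • x) (g • y)) →
    (∀ g : G, ∀ x y : V, T.Adj x y → ¬ (g • x = y ∧ g • y = x)) →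
    ∃ v : V, ∀ g : G, g • v = v

/-- an integer valued conjugation invariant length function -/
structure IsLen (S : Type) [Group S] (ℓ : S → ℕ) : Prop where
  one : ℓ 1 = 0
  mul : ∀ g h, ℓ (g * h) ≤ ℓ g + ℓ h
  inv : ∀ g, ℓ g⁻¹ = ℓ g
  conj : ∀ g h, ℓ (h * g * h⁻¹) = ℓ g

/-- at most `k` words with constants in `S` of length at most `k`, whose turning constants have
length at least `C`, can all be made to have length at least `k` by one substitution. -/
def MixAt (S : Type) [Group S] (ℓ : S → ℕ) (k C : ℕ) : Prop :=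
  ∀ Ws : List (S × List (ℤˣ × S)), Ws.length ≤ k →
    (∀ W ∈ Ws, W.2 ≠ [] ∧ W.2.length ≤ k ∧ W.2.IsChain (fun a b => a.1 ≠ b.1 → C ≤ ℓ a.2)) →
    ∃ w : S, ∀ W ∈ Ws, k ≤ ℓ (W.1 * (W.2.map fun x => w ^ (x.1 : ℤ) * x.2).prod)

/-- a subgroup of a product has no finite quotients besides those seen by the factors -/
def NFQ {S : ℕ → Type} [∀ k, Group (S k)] (H : Subgroup (∀ k, S k)) : Prop :=
  ∀ N : Subgroup H, N.Normal → N.index ≠ 0 →
    (∀ (k : ℕ) (s : S k) (h : Pi.mulSingle k s ∈ H), (⟨Pi.mulSingle k s, h⟩ : H) ∈ N) → N = ⊤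

section NN

variable (S : ℕ → Type) [∀ k, Group (S k)] (ℓ : ∀ k, S k → ℕ) (hl : ∀ k, IsLen (S k) (ℓ k))

/-- the elements of bounded length along the ultrafilter -/
noncomputable def NN : Subgroup (∀ k, S k) where
  carrier := {g | ∃ C, ∀ᶠ n in (Filter.hyperfilter ℕ : Filter ℕ), ℓ n (g n) ≤ C}
  one_mem' := ⟨0, Filter.Eventually.of_forall fun n => ((hl n).one).le⟩
  mul_mem' := by
    rintro a b ⟨C, hC⟩ ⟨D, hD⟩
    refine ⟨C + D, ?_⟩
    filter_upwards [hC, hD] with n h1 h2
    exact ((hl n).mul _ _).trans (add_le_add h1 h2)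
  inv_mem' := by
    rintro a ⟨C, hC⟩
    refine ⟨C, ?_⟩
    filter_upwards [hC] with n h1
    rw [Pi.inv_apply, (hl n).inv]
    exact h1

instance : (NN S ℓ hl).Normal where
  conj_mem := by
    rintro a ⟨C, hC⟩ g
    refine ⟨C, ?_⟩
    filter_upwards [hC] with n h1
    rw [Pi.mul_apply, Pi.mul_apply, Pi.inv_apply, (hl n).conj]
    exact h1

end NN

/-- the rank of `g - 1` -/
noncomputable def rk {V : Type} [AddCommGroup V] [Module (ZMod 2) V] (g : V ≃ₗ[ZMod 2] V) : ℕ :=
  Module.finrank (ZMod 2) (LinearMap.range ((g : V →ₗ[ZMod 2] V) - LinearMap.id))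

/-- the index set of the `k`-th matrix algebra -/
abbrev Om (k : ℕ) : Type := ZMod (k + 1) → ZMod 2

/-- the `k`-th matrix algebra (the tensor product of `k + 1` algebras of matrices of size 2) -/
abbrev Mt (k : ℕ) : Type := Matrix (Om k) (Om k) (ZMod 2)

/-- the `k`-th finite group -/
abbrev St (k : ℕ) : Type := (Matrix (Fin 3) (Fin 3) (Mt k))ˣ

/-- the matrix of the partial map `f` restricted to `P` -/
def pm {O : Type} [DecidableEq O] (f : O → O) (P : O → Bool) : Matrix O O (ZMod 2) :=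
  Matrix.of fun a b => if P b = true ∧ a = f b then 1 else 0

/-- the matrix unit `E_01` at the place `j` -/
def xx (k : ℕ) (j : ZMod (k + 1)) : Mt k :=
  pm (fun b => Function.update b j 0) (fun b => decide (b j = 1))

/-- the matrix unit `E_10` at the place `j` -/
def yy (k : ℕ) (j : ZMod (k + 1)) : Mt k :=
  pm (fun b => Function.update b j 1) (fun b => decide (b j = 0))

/-- the cyclic shift -/
def sh (k : ℕ) : Mt k := pm (fun b i => b (i - 1)) (fun _ => true)

/-- the inverse of the cyclic shift -/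
def sh' (k : ℕ) : Mt k := pm (fun b i => b (i + 1)) (fun _ => true)

/-- the ring -/
noncomputable def R : Subalgebra (ZMod 2) (∀ k, Mt k) :=
  Algebra.adjoin (ZMod 2) {fun k => xx k 0, fun k => yy k 0, sh, sh'}

/-- elementary matrices over the product of the matrix algebras -/
def EE (i j : Fin 3) (h : i ≠ j) (a : ∀ k, Mt k) : ∀ k, St k := fun k => el i j h (a k)

/-- the group -/
noncomputable def Gr : Subgroup (∀ k, St k) :=
  Subgroup.closure {g | ∃ (i j : Fin 3) (h : i ≠ j) (a : ∀ k, Mt k), a ∈ R ∧ g = EE i j h a}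

/-- the rank of `g - 1` over the field with two elements -/
noncomputable def ell (k : ℕ) (g : St k) : ℕ :=
  (Matrix.comp (Fin 3) (Fin 3) (Om k) (Om k) (ZMod 2)
    ((g : Matrix (Fin 3) (Fin 3) (Mt k)) - 1)).rank

end Pool.Agent.N44.FA
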