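import Pool.Agent.N44.FA.Stm

/-!
# Assembly of the project FA
-/

set_option autoImplicit false

namespace Pool.Agent.N44.FA

open Pool.Agent.N44.NS

theorem el_rel {A : Type} [Ring A] {i j k : Fin 3} (hij : i ≠ j) (hjk : j ≠ k) (hik : i ≠ k)
    (a b : A) :
    el i j hij a * el j k hjk b = el j k hjk b * (el i j hij a * el i k hik (a * b)) := by
  apply Units.ext
  change ((1 + Matrix.single i j a) * (1 + Matrix.single j k b) : Matrix (Fin 3) (Fin 3) A) =
    (1 + Matrix.single j k b) * ((1 + Matrix.single i j a) * (1 + Matrix.single i k (a * b)))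
  have h1 : (Matrix.single i j a * Matrix.single j k b : Matrix (Fin 3) (Fin 3) A) =
      Matrix.single i k (a * b) := Matrix.single_mul_single_same ..
  have h2 : (Matrix.single j k b * Matrix.single i j a : Matrix (Fin 3) (Fin 3) A) = 0 :=
    Matrix.single_mul_single_of_ne _ _ _ _ hik.symm _
  have h3 : (Matrix.single i j a * Matrix.single i k (a * b) : Matrix (Fin 3) (Fin 3) A) = 0 :=
    Matrix.single_mul_single_of_ne _ _ _ _ hij.symm _
  have h4 : (Matrix.single j k b * Matrix.single i k (a * b) : Matrix (Fin 3) (Fin 3) A) = 0 :=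
    Matrix.single_mul_single_of_ne _ _ _ _ hik.symm _
  simp only [mul_add, add_mul, one_mul, mul_one, h1, h2, h3, h4, add_zero]
  abel

section gen

variable {S : ℕ → Type} [∀ k, Group (S k)]

theorem rf_pi [∀ k, Finite (S k)] (H : Subgroup (∀ k, S k)) (h : H) (hne : h ≠ 1) :
    ∃ M : Subgroup H, M.Normal ∧ M.index ≠ 0 ∧ h ∉ M := by
  have h1 : ∃ k, (h : ∀ k, S k) k ≠ 1 := by
    by_contra hc
    push Not at hc
    exact hne (Subtype.ext (funext hc))
  obtain ⟨k, hk⟩ := h1
  refine ⟨((Pi.evalMonoidHom S k).comp H.subtype).ker, inferInstance, ?_, ?_⟩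
  · rw [Subgroup.index_ker]
    exact Nat.card_pos.ne'
  · rw [MonoidHom.mem_ker]
    exact hk

/-- the first `n` coordinates -/
def fst (H : Subgroup (∀ k, S k)) (n : ℕ) : H →* (∀ k : Fin n, S k) where
  toFun h k := (h : ∀ k, S k) k
  map_one' := rfl
  map_mul' _ _ := rfl

theorem mem_ker_fst {H : Subgroup (∀ k, S k)} {n : ℕ} {h : H} :
    h ∈ (fst H n).ker ↔ ∀ k < n, (h : ∀ k, S k) k = 1 := by
  rw [MonoidHom.mem_ker]
  constructor
  · intro h1 k hk
    exact congrFun h1 ⟨k, hk⟩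
  · intro h1
    funext k
    exact h1 k k.2

theorem index_fst [∀ k, Finite (S k)] (H : Subgroup (∀ k, S k)) (n : ℕ) :
    (fst H n).ker.index ≠ 0 := by
  rw [Subgroup.index_ker]
  exact Nat.card_pos.ne'

theorem approx (G : Subgroup (∀ k, S k))
    (hs : ∀ (k : ℕ) (s : S k), (Pi.mulSingle k s : ∀ k, S k) ∈ G) (h : ∀ k, S k) (n : ℕ) :
    ∃ g ∈ G, ∀ k < n, g k = h k := by
  induction n with
  | zero => exact ⟨1, G.one_mem, fun k hk => absurd hk (Nat.not_lt_zero k)⟩
  | succ n ih =>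
    obtain ⟨g, hg, hgk⟩ := ih
    refine ⟨g * Pi.mulSingle n ((g n)⁻¹ * h n), G.mul_mem hg (hs _ _), ?_⟩
    intro k hk
    rcases Nat.lt_succ_iff_lt_or_eq.1 hk with hk | hk
    · rw [Pi.mul_apply, Pi.mulSingle_eq_of_ne hk.ne, mul_one]
      exact hgk k hk
    · subst hk
      rw [Pi.mul_apply, Pi.mulSingle_eq_same, mul_inv_cancel_left]

end gen

theorem main (h1 : (∀ (k : ℕ) (s : St k), (Pi.mulSingle k s : ∀ k, St k) ∈ Gr) ∧
      ∀ k, commutator (St k) = ⊤)
    (h2 : S_NFQG) (h3 : S_NFQH) (h4 : S_PRO) (h5 : S_FAP) (h6 : S_GEN) (h7 : S_MIXS) (h8 : S_WW)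
    (h9 : S_TREEH) :
    ¬ (∀ (G H : Type) [Group G] [Group H] (u : G →* H),
      (∀ g : G, g ≠ 1 → ∃ N : Subgroup G, N.Normal ∧ N.index ≠ 0 ∧ g ∉ N) →
      (∀ h : H, h ≠ 1 → ∃ M : Subgroup H, M.Normal ∧ M.index ≠ 0 ∧ h ∉ M) →
      Function.Injective u →
      (∀ N : Subgroup G, N.Normal → N.index ≠ 0 →
        ∃ M : Subgroup H, M.Normal ∧ M.index ≠ 0 ∧ M.comap u ≤ N) →
      (∀ M : Subgroup H, M.Normal → M.index ≠ 0 →
        ∀ h : H, ∃ g : G, ∃ m ∈ M, h = u g * m) →
      FA G → FA H) := by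
  intro hall
  obtain ⟨A, hAf, hAc, hA2, hA4⟩ := h6
  obtain ⟨hlen, hmix, hbig⟩ := h7
  -- `Gr` has (FA)
  have hAG : A ⊆ Gr := by rw [← hAc]; exact Subgroup.subset_closure
  have hcl : Subgroup.closure ((Subtype.val : Gr → ∀ k, St k) ⁻¹' A) = ⊤ := by
    rw [eq_top_iff]
    intro x _
    have hx : (x : ∀ k, St k) ∈ Subgroup.closure A := by rw [hAc]; exact x.2
    have key : ∀ y ∈ Subgroup.closure A, ∀ hy : y ∈ Gr,
        (⟨y, hy⟩ : Gr) ∈ Subgroup.closure ((Subtype.val : Gr → ∀ k, St k) ⁻¹' A) := by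
      intro y hy
      induction hy using Subgroup.closure_induction with
      | mem z hz => intro hy; exact Subgroup.subset_closure hz
      | one => intro hy; exact Subgroup.one_mem _
      | mul a b ha hb iha ihb =>
        intro hy
        have ha' : a ∈ Gr := by rw [← hAc]; exact ha
        have hb' : b ∈ Gr := by rw [← hAc]; exact hb
        exact Subgroup.mul_mem _ (iha ha') (ihb hb')
      | inv a ha iha =>
        intro hy
        have ha' : a ∈ Gr := by rw [← hAc]; exact ha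
        exact Subgroup.inv_mem _ (iha ha')
    exact key _ hx x.2
  have hfin : ((Subtype.val : Gr → ∀ k, St k) ⁻¹' A).Finite :=
    hAf.preimage (Subtype.val_injective.injOn)
  have hFA : FA Gr := by
    refine h5 Gr _ hfin hcl ?_ ?_
    · intro s hs
      exact Subtype.ext (hA2 _ hs)
    · intro s hs t ht
      exact Subtype.ext (by simpa using hA4 _ hs _ ht)
  -- `Gr` is countable
  have hcount : Countable Gr := by
    have hc : Countable ((Subtype.val : Gr → ∀ k, St k) ⁻¹' A) := hfin.countable.to_subtype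
    have hsurj : Function.Surjective (FreeGroup.lift
        (Subtype.val : ((Subtype.val : Gr → ∀ k, St k) ⁻¹' A) → Gr)) := by
      rw [← MonoidHom.range_eq_top, FreeGroup.range_lift_eq_closure, Subtype.range_coe]
      exact hcl
    exact hsurj.countable
  obtain ⟨w, Φ, hΦ, hΦo, hΦt⟩ := h8 St ell hlen hmix Gr hcount
  set H : Subgroup (∀ k, St k) := Gr ⊔ Gr.map (MulAut.conj w).toMonoidHom with hH
  have hGH : Gr ≤ H := le_sup_left
  have hsH : ∀ (k : ℕ) (s : St k), (Pi.mulSingle k s : ∀ k, St k) ∈ H := fun k s => hGH (h1.1 k s)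
  have hfinS : ∀ k, Finite (St k) := fun k => inferInstance
  have hNH : NFQ H := h3 St Gr h1.1 h2 w
  have hnot : ¬ FA H := by
    refine h9 _ _ Φ hΦ hΦo ?_ H ((QuotientGroup.mk' (NN St ell hlen)).comp H.subtype) ?_
    · have m1 : EE 0 1 (by decide) 1 ∈ Gr :=
        Subgroup.subset_closure ⟨0, 1, by decide, 1, R.one_mem, rfl⟩
      have m2 : EE 1 2 (by decide) 1 ∈ Gr :=
        Subgroup.subset_closure ⟨1, 2, by decide, 1, R.one_mem, rfl⟩
      refine ⟨⟨QuotientGroup.mk' _ (EE 0 1 (by decide) 1), Subgroup.mem_map_of_mem _ m1⟩,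
        ⟨QuotientGroup.mk' _ (EE 1 2 (by decide) 1), Subgroup.mem_map_of_mem _ m2⟩, ?_⟩
      intro he
      have he' := congrArg Subtype.val he
      simp only [Subgroup.coe_mul] at he'
      rw [← map_mul, ← map_mul, QuotientGroup.mk'_eq_mk'] at he'
      obtain ⟨z, ⟨C, hC⟩, hz⟩ := he'
      have hzn : ∀ n, z n = (el 0 2 (by decide) (1 : Mt n))⁻¹ := by
        intro n
        have h1 := congrFun hz n
        have h2 : (el 0 1 (by decide) (1 : Mt n)) * (el 1 2 (by decide) 1) * z n =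
            el 1 2 (by decide) 1 * el 0 1 (by decide) 1 := h1
        have h3 : (el 1 2 (by decide) (1 : Mt n)) * (el 0 1 (by decide) 1) =
            el 0 1 (by decide) (1 : Mt n) * el 1 2 (by decide) 1 *
              (el 0 2 (by decide) 1)⁻¹ := by
          rw [el_rel (by decide) (by decide) (by decide), mul_one, eq_mul_inv_iff_mul_eq, mul_assoc]
        rw [h3] at h2
        exact mul_left_cancel h2
      have hle : ∀ᶠ n in (Filter.hyperfilter ℕ : Filter ℕ), n ≤ C := by
        filter_upwards [hC] with n hn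
        rw [hzn n, (hlen n).inv] at hn
        exact (hbig n).trans hn
      exact Filter.notMem_hyperfilter_of_finite (Set.finite_le_nat C) hle
    · rw [hΦt, MonoidHom.range_comp, Subgroup.range_subtype, hH, Subgroup.map_sup,
        Subgroup.map_map, Subgroup.map_map]
      congr 2
  refine hnot (hall Gr H (Subgroup.inclusion hGH) ?_ ?_ (Subgroup.inclusion_injective hGH) ?_ ?_ hFA)
  · intro g hg
    exact rf_pi Gr g hg
  · intro g hg
    exact rf_pi H g hg
  · intro N hN hi
    obtain ⟨n, hn⟩ := h4 St h1.2 Gr h1.1 h2 N hN hi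
    refine ⟨(fst H n).ker, inferInstance, index_fst H n, ?_⟩
    intro g hg
    rw [Subgroup.mem_comap, mem_ker_fst] at hg
    exact hn g hg
  · intro M hM hi h
    obtain ⟨n, hn⟩ := h4 St h1.2 H hsH hNH M hM hi
    obtain ⟨g, hg, hgk⟩ := approx Gr h1.1 (h : ∀ k, St k) n
    refine ⟨⟨g, hg⟩, (Subgroup.inclusion hGH ⟨g, hg⟩)⁻¹ * h, ?_, by rw [mul_inv_cancel_left]⟩
    apply hn
    intro k hk
    show (g⁻¹ * (h : ∀ k, St k)) k = 1
    rw [Pi.mul_apply, Pi.inv_apply, hgk k hk, inv_mul_cancel]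

end Pool.Agent.N44.FA
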