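import Pool.Agent.N44.FA.Stm

/-!
# The path statement of the greedy lemma (project FA)
-/

set_option autoImplicit false

namespace Pool.Agent.N44.FA

variable {V : Type} [AddCommGroup V] [Module (ZMod 2) V]

/-- apply `w ^ e` and then `g` for the successive letters `(e, g)` of the list -/
def act (w : V ≃ₗ[ZMod 2] V) : V → List (ℤˣ × (V ≃ₗ[ZMod 2] V)) → V
  | c, [] => c
  | c, (e, g) :: L => act w (g ((w ^ (e : ℤ)) c)) L

/-- the domain (sign `1`) or the range (sign `-1`) of the restriction of `w` to `D` -/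
def side (w : V ≃ₗ[ZMod 2] V) (D : Submodule (ZMod 2) V) (e : ℤˣ) : Submodule (ZMod 2) V :=
  if e = 1 then D else D.map (w : V →ₗ[ZMod 2] V)

/-- the path lemma -/
def S_PATH : Prop :=
  ∀ (V : Type) [AddCommGroup V] [Module (ZMod 2) V] [Finite V] (k C0 : ℕ)
    (L : List (ℤˣ × (V ≃ₗ[ZMod 2] V))), L ≠ [] → C0 ≤ Module.finrank (ZMod 2) V →
    L.IsChain (fun a b => a.1 ≠ b.1 → C0 ≤ rk a.2) →
    ∀ (w0 : V ≃ₗ[ZMod 2] V) (D : Submodule (ZMod 2) V) (c : V) (U : Submodule (ZMod 2) V),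
      Module.finrank (ZMod 2) U ≤ k → Module.finrank (ZMod 2) D + L.length + k + 3 ≤ C0 →
      (∀ a ∈ L.head?, c ∉ side w0 D a.1) →
      ∃ (w1 : V ≃ₗ[ZMod 2] V) (D1 : Submodule (ZMod 2) V) (y : V), D ≤ D1 ∧
        (∀ z ∈ D, w1 z = w0 z) ∧
        Module.finrank (ZMod 2) D1 ≤ Module.finrank (ZMod 2) D + L.length ∧ y ∉ U ∧
        ∀ w : V ≃ₗ[ZMod 2] V, (∀ z ∈ D1, w z = w1 z) → act w c L = y

end Pool.Agent.N44.FA
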